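import Mathlib
import Pool.Agent.H23.SLP

set_option autoImplicit false

namespace Pool.Agent.Results.MP_f57c03_lc.Regular

open Pool.Agent.H23.SLP Finset Set TensorProduct Filter Submodule

universe u

/-- The field of rational functions in the entries of two `n × n` matrices. -/
abbrev F (K : Type u) [Field K] (n : ℕ) : Type u :=
  FractionRing (MvPolynomial ((Fin n × Fin n) ⊕ (Fin n × Fin n)) K)

/-- The indeterminates. -/
noncomputable def x (K : Type u) [Field K] {n : ℕ} (s : (Fin n × Fin n) ⊕ (Fin n × Fin n)) : F K n :=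
  algebraMap (MvPolynomial _ K) _ (MvPolynomial.X s)

/-- The initial results: indeterminates and constants. -/
def B (K : Type u) [Field K] (n : ℕ) : Set (F K n) := range (x K) ∪ range (algebraMap K (F K n))

/-- The least number of steps of a program computing all entries of the product. -/
noncomputable def M (K : Type u) [Field K] (n : ℕ) : ℕ :=
  sInf {k | ∃ l, Prog (B K n) l ∧ l.length = k ∧ ∀ i j : Fin n,
    ∑ k, x K (.inl (i, k)) * x K (.inr (k, j)) ∈ l ∨
      ∑ k, x K (.inl (i, k)) * x K (.inr (k, j)) ∈ B K n}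

variable {K : Type u} [Field K]

theorem exists_der {σ : Type} [DecidableEq σ] (L : Type u) [Field L] [Algebra K L]
    [Algebra (MvPolynomial σ K) L] [IsScalarTower K (MvPolynomial σ K) L]
    [IsFractionRing (MvPolynomial σ K) L] : ∃ D : σ → L →+ L,
    (∀ s y z, D s (y * z) = y * D s z + D s y * z) ∧ (∀ s c, D s (algebraMap K _ c) = 0) ∧
      ∀ s t, D s (algebraMap (MvPolynomial σ K) L (.X t)) = if s = t then 1 else 0 := by
  let g : σ → MvPolynomial σ K →+* TrivSqZeroExt L L := fun s => MvPolynomial.eval₂Hom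
    ((TrivSqZeroExt.inlHom L L).comp (algebraMap K L))
    fun t => (algebraMap (MvPolynomial σ K) L (.X t), if s = t then 1 else 0)
  have g1 : ∀ s p, (g s p).fst = algebraMap _ _ p := fun s p => by
    induction p using MvPolynomial.induction_on with
    | C a => simp [g, IsScalarTower.algebraMap_apply K (MvPolynomial σ K) L]
    | add p q a b => simp [a, b]
    | mul_X p i a => rw [map_mul, TrivSqZeroExt.fst_mul, a]; simp [g]
  have g2 : ∀ s (y : nonZeroDivisors (MvPolynomial σ K)), IsUnit (g s y) := fun s y =>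
    TrivSqZeroExt.isUnit_iff_isUnit_fst.2 (g1 s y ▸ IsLocalization.map_units _ y)
  let ψ := fun s => IsLocalization.lift (S := L) (g2 s)
  have g3 : ∀ s y, (ψ s y).fst = y := fun s => RingHom.congr_fun (IsLocalization.ringHom_ext
    (j := (TrivSqZeroExt.fstHom L _ _).toRingHom.comp (ψ s)) (k := RingHom.id _)
      (nonZeroDivisors (MvPolynomial σ K)) (RingHom.ext fun p => by simpa [ψ] using g1 s p))
  refine ⟨fun s => AddMonoidHom.mk' (fun y => (ψ s y).snd) (by simp), fun s y z => ?_,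
    fun s c => ?_, fun s t => ?_⟩
  · simp [g3, mul_comm]
  · rw [IsScalarTower.algebraMap_apply K (MvPolynomial σ K) L]
    simp [ψ, g]
  · simp [ψ, g]

theorem lower {n : ℕ} {l : List (F K n)} (h : Prog (B K n) l) (o : ∀ i j : Fin n,
    ∑ k, x K (.inl (i, k)) * x K (.inr (k, j)) ∈ l ∨
      ∑ k, x K (.inl (i, k)) * x K (.inr (k, j)) ∈ B K n) :
    ∃ (r : ℕ) (u v w : Fin r → Fin n × Fin n → F K n), Dec u v w ∧ r ≤ l.length ∧ n ^ 2 ≤ r := by
  classical
  obtain ⟨D, d1, d2, d3⟩ := exists_der (K := K) (σ := (Fin n × Fin n) ⊕ (Fin n × Fin n)) (F K n)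
  replace d3 : ∀ s t, D s (x K t) = if s = t then 1 else 0 := d3
  let ι := Fin n × Fin n
  let H : F K n → ι × ι → F K n := fun y s => D (.inl s.1) (D (.inr s.2) y)
  let T : (ι → F K n) × (ι → F K n) → ι × ι → F K n := fun q s => q.1 s.1 * q.2 s.2
  let d : F K n → F K n → (ι → F K n) × (ι → F K n) := fun y z =>
    (fun s => D (.inl s) y, fun s => D (.inr s) z)
  let G : F K n → ι × ι → F K n := fun y => y • H y - T (d y y)
  have m1 : ∀ y z, H (y * z) = y • H z + z • H y + (T (d y z) + T (d z y)) := fun y z =>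
    funext fun s => by simp [H, T, d, d1]; ring
  have m2 : ∀ y z, G (y * z) = y ^ 2 • G z + z ^ 2 • G y := fun y z =>
    funext fun s => by simp [G, H, T, d, d1]; ring
  have m3 : ∀ y z, (y * z) • G (y + z) = ((y + z) * z) • G y + ((y + z) * y) • G z +
      T (z • d y y - y • d z z) := fun y z => funext fun s => by simp [G, H, T, d]; ring
  have m4 : ∀ y, G (-y) = G y := fun y => funext fun s => by simp [G, H, T, d]
  have one : ∀ s, D s 1 = 0 := fun s => by simpa using d2 s 1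
  have b0 : ∀ y ∈ B K n, H y = 0 ∧ G y = 0 := by
    rintro _ (⟨s, rfl⟩ | ⟨c, rfl⟩) <;> constructor <;> funext q
    · simp only [H, d3]; split_ifs <;> simp [one]
    · rcases s with s | s <;> simp [G, H, T, d, d3, apply_ite (D _), one]
    · simp [H, d2]
    · simp [G, H, T, d, d2]
  obtain ⟨P, Q, a1, a2⟩ : ∃ (P : Finset (ι × ι → F K n))
      (Q : Finset ((ι → F K n) × (ι → F K n))), P.card + Q.card ≤ l.length ∧
      ∀ y, y ∈ l ∨ y ∈ B K n → H y ∈ span (F K n) (P : Set _) ∧ G y ∈ span (F K n) (T '' Q) := by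
    clear o
    have add : ∀ (Q : Finset ((ι → F K n) × (ι → F K n))) y z, G y ∈ span (F K n) (T '' Q) → G z ∈ span (F K n) (T '' Q) →
        G (y + z) ∈ span (F K n) (T '' (insert (z • d y y - y • d z z) Q : Finset _)) :=
      fun Q y z a b => by
      have k : span (F K n) (T '' Q) ≤ span (F K n) (T '' (insert (z • d y y - y • d z z) Q :
        Finset _)) := span_mono (image_mono (by simp))
      by_cases hy : y = 0
      · simpa only [hy, zero_add] using k b
      by_cases hz : z = 0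
      · simpa only [hz, add_zero] using k a
      rw [← smul_mem_iff _ (mul_ne_zero hy hz), m3]
      exact add_mem (add_mem (smul_mem _ _ (k a)) (smul_mem _ _ (k b))) (subset_span ⟨_, by simp, rfl⟩)
    have ext : ∀ {l : List (F K n)} {P P' : Finset (ι × ι → F K n)}
        {Q Q' : Finset ((ι → F K n) × (ι → F K n))} {t}, (∀ y, y ∈ l ∨ y ∈ B K n →
        H y ∈ span (F K n) (P : Set _) ∧ G y ∈ span (F K n) (T '' Q)) → P ⊆ P' → Q ⊆ Q' →
        H t ∈ span (F K n) (P' : Set _) → G t ∈ span (F K n) (T '' Q') → ∀ y, y ∈ t :: l ∨ y ∈ B K n →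
        H y ∈ span (F K n) (P' : Set _) ∧ G y ∈ span (F K n) (T '' Q') :=
      fun a b c e f y g => by
      rw [List.mem_cons, or_assoc] at g
      rcases g with rfl | g
      exacts [⟨e, f⟩, ⟨span_mono b (a y g).1, span_mono (image_mono c) (a y g).2⟩]
    induction h with
    | nil => exact ⟨∅, ∅, le_rfl, fun y h => by simp [b0 y (by simpa using h)]⟩
    | @add l y z _ hy hz ih =>
      obtain ⟨P, Q, a, b⟩ := ih
      refine ⟨P, _, ?_, ext b le_rfl (subset_insert _ _) ?_ (add Q y z (b y hy).2 (b z hz).2)⟩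
      · grw [card_insert_le, List.length_cons]; omega
      · rw [show H (y + z) = H y + H z from funext fun s => by simp [H]]
        exact add_mem (b y hy).1 (b z hz).1
    | @sub l y z _ hy hz ih =>
      obtain ⟨P, Q, a, b⟩ := ih
      refine ⟨P, _, ?_, ext b le_rfl (subset_insert _ _) ?_
        (sub_eq_add_neg y z ▸ add Q y (-z) (b y hy).2 (m4 z ▸ (b z hz).2))⟩
      · grw [card_insert_le, List.length_cons]; omega
      · rw [show H (y - z) = H y - H z from funext fun s => by simp [H]]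
        exact sub_mem (b y hy).1 (b z hz).1
    | @mul l y z _ hy hz ih =>
      obtain ⟨P, Q, a, b⟩ := ih
      have k : span (F K n) (P : Set _) ≤ span _ ((insert (T (d y z) + T (d z y)) P : Finset _) :
        Set (ι × ι → F K n)) :=
        span_mono (by simp)
      refine ⟨_, Q, ?_, ext b (subset_insert (T (d y z) + T (d z y)) _) le_rfl ?_ ?_⟩
      · grw [card_insert_le, List.length_cons]; omega
      · exact m1 y z ▸ add_mem (add_mem (smul_mem _ _ (k (b z hz).1)) (smul_mem _ _ (k (b y hy).1)))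
          (subset_span (by simp))
      · exact m2 y z ▸ add_mem (smul_mem _ _ (b z hz).2) (smul_mem _ _ (b y hy).2)
    | @div l y z _ hy hz h0 ih =>
      obtain ⟨P, Q, a, b⟩ := ih
      obtain ⟨t, rfl⟩ : ∃ t, y = t * z := ⟨y / z, (div_mul_cancel₀ y h0).symm⟩
      rw [mul_div_cancel_right₀ _ h0]
      have k : span (F K n) (P : Set _) ≤ span _ ((insert (T (d t z) + T (d z t)) P : Finset _) :
        Set (ι × ι → F K n)) :=
        span_mono (by simp)
      refine ⟨_, Q, ?_, ext b (subset_insert (T (d t z) + T (d z t)) _) le_rfl ?_ ?_⟩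
      · grw [card_insert_le, List.length_cons]; omega
      · rw [← smul_mem_iff _ h0, show z • H t = H (t * z) - t • H z - (T (d t z) + T (d z t)) by
          rw [m1]; abel]
        exact sub_mem (sub_mem (k (b _ hy).1) (smul_mem _ _ (k (b z hz).1))) (subset_span (by simp))
      · rw [← smul_mem_iff _ (pow_ne_zero 2 h0), show z ^ 2 • G t = G (t * z) - t ^ 2 • G z by
          rw [m2]; abel]
        exact sub_mem (b _ hy).2 (smul_mem _ _ (b z hz).2)
  let c : ι → F K n := fun q => ∑ k, x K (.inl (q.1, k)) * x K (.inr (k, q.2))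
  have c1 : ∀ q s, H (c q) s = if q.1 = s.1.1 ∧ s.1.2 = s.2.1 ∧ s.2.2 = q.2 then 1 else 0 := by
    rintro ⟨i, j⟩ ⟨⟨a, b⟩, e, f⟩
    simp only [H, c, map_sum, d1, d3, reduceCtorEq, if_false, zero_mul, add_zero, Sum.inr.injEq,
      Prod.mk.injEq, ite_and, mul_ite, mul_one, mul_zero, sum_ite_eq, apply_ite (D _), map_zero,
      Finset.mem_univ, if_true, Sum.inl.injEq]
    split_ifs <;> simp_all
  have c2 : Fintype.card ι ≤ P.card := by
    simpa using linearIndependent_le_span_aux' (fun q => H (c q)) (Fintype.linearIndependent_iff.2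
      fun g h q => by
        have := congrFun h ((q.1, q.1), q.1, q.2)
        rw [Finset.sum_apply] at this
        change ∑ r, g r * H (c r) _ = 0 at this
        simp only [c1, true_and, mul_ite, mul_one,
          mul_zero, @eq_comm _ q.2, ← Prod.ext_iff] at this
        exact (Fintype.sum_ite_eq' q g).symm.trans this) (P : Set _) (by rintro _ ⟨q, rfl⟩; exact (a2 _ (o _ _)).1)
  let e := (Fintype.equivFin (Q ⊕ ι)).symm
  let E : Q ⊕ ι → (ι → F K n) × (ι → F K n) := Sum.elim (↑) fun q => d (c q) (c q)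
  have c3 : ∀ q, H (c q) ∈ span (F K n) (range fun r => T (E (e r))) := fun q => by
    have : c q ≠ 0 := fun h => by simpa [h, H] using c1 q ((q.1, q.1), q.1, q.2)
    rw [← smul_mem_iff _ this, show c q • H (c q) = G (c q) + T (d (c q) (c q)) by simp [G]]
    refine add_mem (span_mono ?_ (a2 _ (o _ _)).2) (subset_span ⟨e.symm (.inr q), by simp [E]⟩)
    rintro _ ⟨r, i, rfl⟩
    exact ⟨e.symm (.inl ⟨r, i⟩), by simp [E]⟩
  choose w hw using fun q => (mem_span_range_iff_exists_fun _).1 (c3 q)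
  refine ⟨_, fun r => (E (e r)).1, fun r => (E (e r)).2, fun r q => w q r, fun s t q => ?_, ?_, ?_⟩
  · exact (Finset.sum_apply _ _ _).symm.trans ((congrFun (hw q) (s, t)).trans (c1 q (s, t)))
  · simp only [Fintype.card_sum, Fintype.card_coe]; omega
  · simp [ι, sq]

theorem descend {L : Type u} [Field L] [Algebra K L] {ι ρ : Type} [Fintype ι] [DecidableEq ι]
    [Fintype ρ] {u v w : ρ → ι × ι → L} (d : Dec u v w) : ∃ (A : Type u) (_ : Field A)
      (_ : Algebra K A) (_ : Module.Finite K A) (u v w : ρ → ι × ι → A), Dec u v w := by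
  let g : Fin 3 × ρ × ι × ι → L := fun p => ![u, v, w] p.1 p.2.1 p.2.2
  let S := Algebra.adjoin K (range g)
  have : Algebra.FiniteType K S := Algebra.FiniteType.adjoin_of_finite (finite_range g)
  obtain ⟨m, hm⟩ := Ideal.exists_maximal S
  let := Ideal.Quotient.field m
  let f : Fin 3 → ρ → ι × ι → S := fun a r s => ⟨g (a, r, s), Algebra.subset_adjoin ⟨_, rfl⟩⟩
  refine ⟨S ⧸ m, inferInstance, inferInstance, finite_of_finite_type_of_isJacobsonRing _ _,
    fun r s => Ideal.Quotient.mk m (f 0 r s), fun r s => Ideal.Quotient.mk m (f 1 r s),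
    fun r s => Ideal.Quotient.mk m (f 2 r s), fun s t q => ?_⟩
  have : ∑ r, f 2 r q * (f 0 r s * f 1 r t) =
      if q.1 = s.1 ∧ s.2 = t.1 ∧ t.2 = q.2 then 1 else 0 := Subtype.ext (by
    simpa [f, g, apply_ite Subtype.val] using d s t q)
  simpa [apply_ite (Ideal.Quotient.mk m)] using congrArg (Ideal.Quotient.mk m) this

theorem M_le {n k : ℕ} (h : St (B K n) k (range fun p : Fin n × Fin n =>
    ∑ k, x K (.inl (p.1, k)) * x K (.inr (k, p.2))) (B K n)) : ∃ l, Prog (B K n) l ∧
      l.length ≤ k ∧ ∀ i j : Fin n, ∑ k, x K (.inl (i, k)) * x K (.inr (k, j)) ∈ l ∨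
        ∑ k, x K (.inl (i, k)) * x K (.inr (k, j)) ∈ B K n :=
  (h [] .nil fun _ => .inr).imp fun _ ⟨a, b, _, c⟩ =>
    ⟨a, by simpa using b, fun i j => c _ ⟨(i, j), rfl⟩⟩

theorem upper (n : ℕ) : ∃ C r : ℕ, r ≤ M K n ∧ n ^ 2 ≤ r ∧
    ∀ j N, N ≤ n ^ j → M K N ≤ C * (j + 1) * r ^ j := by
  have z : ∀ n, (0 : F K n) ∈ B K n := fun n => .inr ⟨0, map_zero _⟩
  obtain ⟨l, a, -, b⟩ := M_le ((sys_st _).naive (z n) (Fin n) (fun i j => x K (.inl (i, j)))
    (fun i j => x K (.inr (i, j))) _ le_rfl (fun _ _ => .inl ⟨_, rfl⟩) fun _ _ => .inl ⟨_, rfl⟩)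
  obtain ⟨l, a, e, b⟩ := Nat.sInf_mem (s := {k | ∃ l, Prog (B K n) l ∧ l.length = k ∧ ∀ i j : Fin n,
    ∑ k, x K (.inl (i, k)) * x K (.inr (k, j)) ∈ l ∨
      ∑ k, x K (.inl (i, k)) * x K (.inr (k, j)) ∈ B K n}) ⟨_, l, a, rfl, b⟩
  obtain ⟨r, u, v, w, d, r1, r2⟩ := lower a b
  obtain ⟨A, _, _, _, u, v, w, d⟩ := descend (K := K) d
  obtain ⟨m, β, i, hi⟩ : ∃ (m : ℕ) (β : Module.Basis (Fin m) K A) (i : Fin m), β i = 1 := by
    have h : LinearIndepOn K id {(1 : A)} := by simp
    have := Module.Finite.finite_basis (Module.Basis.extend h)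
    obtain ⟨m, ⟨e⟩⟩ := Finite.exists_equiv_fin (h.extend (subset_univ _))
    exact ⟨m, (Module.Basis.extend h).reindex e, e ⟨1, h.subset_extend _ rfl⟩, by simp⟩
  refine ⟨3 * (2 * 2 * m ^ 3) * n ^ 2 + 2 * 2 * m ^ 3, r, r1.trans_eq e, r2, fun j N hN => ?_⟩
  let ε := Algebra.TensorProduct.basis (F K N) β
  have k : ∀ a k, ε.repr (1 ⊗ₜ a) k ∈ B K N := fun a k => .inr ⟨β.repr a k, by simp [ε]⟩
  have k' : ∀ (y : F K N) k, ε.repr (y ⊗ₜ 1) k = if i = k then y else 0 := fun y k => by
    simp [ε, ← hi, Finsupp.single_apply]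
  have S := (sys_st (B K N)).lift ε (z N) fun a b c => by
    simpa [ε, -Algebra.TensorProduct.basis_repr_tmul] using k (β a * β b) c
  have := S.all (C := range fun a : A => 1 ⊗ₜ a) ⟨0, by simp⟩ (u := fun r s => 1 ⊗ₜ u r s)
    (v := fun r s => 1 ⊗ₜ v r s) (w := fun r s => 1 ⊗ₜ w r s) (fun s t q => by
      simp only [Algebra.TensorProduct.tmul_mul_tmul, mul_one, ← tmul_sum, d s t q]
      split_ifs <;> simp [Algebra.TensorProduct.one_def]) (fun _ _ => ⟨_, rfl⟩) (fun _ _ => ⟨_, rfl⟩)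
    (fun _ _ => ⟨_, rfl⟩) (by simpa using r2) j (Fin N) (by simpa using hN)
    (fun i j => x K (.inl (i, j)) ⊗ₜ 1) (fun i j => x K (.inr (i, j)) ⊗ₜ 1)
    ((range fun a : A => 1 ⊗ₜ a) ∪ range fun s => x K s ⊗ₜ 1) subset_union_left
    (fun _ _ => .inr ⟨_, rfl⟩) fun _ _ => .inr ⟨_, rfl⟩
  simp only [Fintype.card_fin] at this
  obtain ⟨l, a, e, b⟩ := M_le ((sys_st _).weak this le_rfl (by
    rintro _ ⟨p, rfl⟩
    refine .inl ⟨_, ⟨p, rfl⟩, i, ?_⟩
    simp only [Algebra.TensorProduct.tmul_mul_tmul, mul_one, ← sum_tmul, k', if_true]) (by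
    rintro _ (⟨_, ⟨a, rfl⟩ | ⟨s, rfl⟩, c, rfl⟩ | h)
    · exact k a c
    · rw [k']; split_ifs
      exacts [.inl ⟨s, rfl⟩, z N]
    · exact h))
  exact le_trans (Nat.sInf_le (by exact ⟨l, a, rfl, b⟩)) e

theorem result (K : Type u) [Field K] (ω : ℝ) (h : ∃ᶠ n : ℕ in atTop, (M K n : ℝ) < (n : ℝ) ^ ω) :
    ∀ᶠ n : ℕ in atTop, (M K n : ℝ) < (n : ℝ) ^ ω * Real.log n := by
  obtain ⟨n, h, h2⟩ := (h.and_eventually (eventually_ge_atTop 2)).exists
  obtain ⟨C, r, r1, r2, r3⟩ := upper (K := K) n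
  have n1 : (1 : ℝ) < n := by exact_mod_cast h2
  have r4 : (r : ℝ) < n ^ ω := lt_of_le_of_lt (by exact_mod_cast r1) h
  have w0 : 0 ≤ ω := not_lt.1 fun a => by
    have := Real.rpow_lt_one_of_one_lt_of_neg n1 a
    have : (1 : ℝ) ≤ r := by exact_mod_cast (Nat.one_le_pow _ _ (by omega)).trans r2
    linarith
  have s0 : (0 : ℝ) < n ^ ω := by positivity
  have t := tendsto_self_mul_const_pow_of_lt_one (r := r / n ^ ω) (by positivity)
    ((div_lt_one s0).2 r4)
  have t' := ((t.add (tendsto_pow_atTop_nhds_zero_of_lt_one (by positivity)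
    ((div_lt_one s0).2 r4))).const_mul (C * (n : ℝ) ^ ω)).eventually_lt_const
      (show _ < (1 : ℝ) by simp)
  obtain ⟨J, hJ⟩ := eventually_atTop.1 t'
  filter_upwards [eventually_ge_atTop 3, eventually_gt_atTop (n ^ J)] with N N3 NJ
  obtain ⟨j, j1, j2⟩ : ∃ j, n ^ j < N ∧ N ≤ n ^ (j + 1) :=
    ⟨Nat.clog n N - 1, Nat.pow_pred_clog_lt_self h2 (by omega), by
      rw [Nat.sub_add_cancel (Nat.clog_pos h2 (by omega))]; exact Nat.le_pow_clog h2 N⟩
  have e := hJ (j + 1) ((Nat.pow_lt_pow_iff_right h2).1 (NJ.trans_le j2)).le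
  have l1 : 1 ≤ Real.log N := by
    rw [Real.le_log_iff_exp_le (by positivity)]
    exact Real.exp_one_lt_three.le.trans (by exact_mod_cast N3)
  calc
    (M K N : ℝ) ≤ C * ((j + 1 : ℕ) + 1) * r ^ (j + 1) := by exact_mod_cast r3 _ _ j2
    _ < (n ^ ω) ^ j := by
      rw [div_pow, pow_succ (n ^ ω : ℝ)] at e
      field_simp at e
      linarith
    _ = (n ^ j : ℕ) ^ ω := by
      rw [Nat.cast_pow, ← Real.rpow_natCast, ← Real.rpow_natCast, ← Real.rpow_mul (by positivity),
        ← Real.rpow_mul (by positivity), mul_comm]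
    _ ≤ N ^ ω := by gcongr
    _ ≤ _ := le_mul_of_one_le_right (by positivity) l1

end Pool.Agent.Results.MP_f57c03_lc.Regular
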